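import Pool.Agent.Lib.MP_a93a41_nt.THAll

namespace Pool.Agent.Results.MP_a93a41_nt.BelowThreshold

/-- The conjectured large values bound holds for `V ^ 2 ≥ N * T ^ (1 / 2 - c)`. -/
theorem result : ∃ c : ℝ, 0 < c ∧ ∀ ε : ℝ, 0 < ε → ∃ C : ℝ, 0 < C ∧
    ∀ (N : ℕ) (T V : ℝ) (a : ℕ → ℂ) (S : Finset ℝ),
      1 ≤ N → 1 ≤ T → 0 < V →
      (∀ n, ‖a n‖ ≤ 1) →
      (N : ℝ) * T ^ (1 / 2 - c) ≤ V ^ 2 →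
      (∀ t ∈ S, 0 ≤ t ∧ t ≤ T ∧
        V ≤ ‖∑ n ∈ Finset.Icc 1 N, a n * (n : ℂ) ^ (-((t : ℂ) * Complex.I))‖) →
      (∀ t ∈ S, ∀ u ∈ S, t ≠ u → 1 ≤ |t - u|) →
      (S.card : ℝ) ≤ C * (N : ℝ) ^ 2 / V ^ 2 * T ^ ε :=
  Pool.Agent.Lib.MP_a93a41_nt.TH.main_all

end Pool.Agent.Results.MP_a93a41_nt.BelowThreshold
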