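import Pool.Agent.Lib.MP_a93a41_nt.GM11

namespace Pool.Agent.Results.MP_a93a41_nt.GuthMaynardImproved

/-- A large values estimate for `N^(3/4) ≤ V ≤ N^(10/13)` and `T ≥ N^(5/4)`. -/
theorem result : ∀ ε : ℝ, 0 < ε → ∃ C : ℝ,
    ∀ (N : ℕ) (a : ℕ → ℂ) (T V : ℝ) (S : Finset ℝ),
      1 ≤ N → (∀ n, ‖a n‖ ≤ 1) → (N : ℝ) ^ (5 / 4 : ℝ) ≤ T →
      (N : ℝ) ^ (3 / 4 : ℝ) ≤ V → V ≤ (N : ℝ) ^ (10 / 13 : ℝ) →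
      (∀ t ∈ S, 0 ≤ t ∧ t ≤ T) →
      (∀ t ∈ S, ∀ u ∈ S, t ≠ u → 1 ≤ |t - u|) →
      (∀ t ∈ S, V ≤ ‖∑ n ∈ Finset.Icc 1 N, a n * (n : ℂ) ^ (-((t : ℂ) * Complex.I))‖) →
      (S.card : ℝ) ≤ C * (N : ℝ) ^ ε *
        (T ^ (23 / 27 : ℝ) * (N : ℝ) ^ (8 / 3 : ℝ) * V ^ (-(37 / 9) : ℝ)
          + T * (N : ℝ) ^ (23 / 9 : ℝ) * V ^ (-(38 / 9) : ℝ)) :=
  Pool.Agent.Lib.MP_a93a41_nt.GM.final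

end Pool.Agent.Results.MP_a93a41_nt.GuthMaynardImproved
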