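import Pool.Agent.Lib.MP_a93a41_nt.NF4

namespace Pool.Agent.Results.MP_a93a41_nt.NineFourths

/-- The uniform large values estimate with exponent `9/4`. -/
theorem result : ∀ ε K : ℝ, 0 < ε → ∃ C : ℝ,
    ∀ (N : ℕ) (a : ℕ → ℂ) (T σ : ℝ) (S : Finset ℝ),
      1 ≤ N → (∀ n, ‖a n‖ ≤ 1) → (N : ℝ) ^ (16 / 9 : ℝ) ≤ T → T ≤ (N : ℝ) ^ K →
      (∀ t ∈ S, 0 ≤ t ∧ t ≤ T) →
      (∀ t ∈ S, ∀ u ∈ S, t ≠ u → 1 ≤ |t - u|) →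
      (∀ t ∈ S, (N : ℝ) ^ σ ≤ ‖∑ n ∈ Finset.Icc 1 N, a n * (n : ℂ) ^ (-((t : ℂ) * Complex.I))‖) →
      (S.card : ℝ) ≤ C * T ^ (9 / 4 * (1 - σ) + ε) :=
  Pool.Agent.Lib.MP_a93a41_nt.GM.thmC Pool.Agent.Lib.MP_a93a41_nt.GM.coreB

end Pool.Agent.Results.MP_a93a41_nt.NineFourths
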